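import Pool.Agent.P.MP_17f8fc_co.Defs

namespace Pool.Agent.P.MP_17f8fc_co

open scoped Pointwise
open Real Set

/-- golden ratio -/
noncomputable def g : ℝ := (1 + √5) / 2

lemma g_sq : g * g = g + 1 := by
  have h : √5 * √5 = 5 := Real.mul_self_sqrt (by norm_num)
  unfold g; nlinarith

lemma g_gt : 1.6 < g := by
  have : (2.2 : ℝ) < √5 := Real.lt_sqrt_of_sq_lt (by norm_num)
  unfold g; linarith

lemma g_lt : g < 1.7 := by
  have : √5 < (2.4 : ℝ) := (Real.sqrt_lt' (by norm_num)).2 (by norm_num)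
  unfold g; linarith

/-- the edge functionals -/
noncomputable def Q (k : ℤ) : Plane →L[ℝ] ℝ :=
  cos (k * π / 5) • EuclideanSpace.proj (0 : Fin 2) + sin (k * π / 5) • EuclideanSpace.proj (1 : Fin 2)

lemma Q_apply (k : ℤ) (z : Plane) : Q k z = cos (k * π / 5) * z 0 + sin (k * π / 5) * z 1 := by
  simp [Q]

lemma mem_dec {z : Plane} : z ∈ decagon ↔ ∀ k, Q k z ≤ 1 := by
  simp only [decagon, mem_ofPred_eq, Q_apply]

lemma Q2 (k : ℤ) (z : Plane) : Q (k + 2) z = g * Q (k + 1) z - Q k z := by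
  have hc : cos (π / 5) = g / 2 := by rw [cos_pi_div_five, g]; ring
  have e2 : ((k + 2 : ℤ) : ℝ) * π / 5 = ((k + 1 : ℤ) : ℝ) * π / 5 + π / 5 := by push_cast; ring
  have e0 : (k : ℝ) * π / 5 = ((k + 1 : ℤ) : ℝ) * π / 5 - π / 5 := by push_cast; ring
  rw [Q_apply, Q_apply, Q_apply, e2, e0, cos_add, sin_add, cos_sub, sin_sub, hc]; ring

lemma Q3 (k : ℤ) (z : Plane) : Q (k + 3) z = g * Q (k + 1) z - g * Q k z := by
  have h := Q2 (k + 1) z
  rw [show k + 1 + 2 = k + 3 by ring, show k + 1 + 1 = k + 2 by ring, Q2 k] at h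
  rw [h]; linear_combination Q (k + 1) z * g_sq

lemma Q4 (k : ℤ) (z : Plane) : Q (k + 4) z = Q (k + 1) z - g * Q k z := by
  have h := Q2 (k + 2) z
  rw [show k + 2 + 2 = k + 4 by ring, show k + 2 + 1 = k + 3 by ring, Q2 k, Q3 k] at h
  rw [h]; linear_combination (Q (k + 1) z - Q k z) * g_sq

lemma Q5 (k : ℤ) (z : Plane) : Q (k + 5) z = - Q k z := by
  have h := Q2 (k + 3) z
  rw [show k + 3 + 2 = k + 5 by ring, show k + 3 + 1 = k + 4 by ring, Q4 k, Q3 k] at h
  rw [h]; linear_combination (- Q k z) * g_sq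

lemma Q10 (k : ℤ) (z : Plane) : Q (k + 10) z = Q k z := by
  rw [show k + 10 = k + 5 + 5 by ring, Q5, Q5, neg_neg]

lemma sin_pos : 0 < sin (π / 5) :=
  sin_pos_of_pos_of_lt_pi (by positivity) (by linarith [pi_pos])

lemma Q_succ (k : ℤ) (z : Plane) : Q (k + 1) z = cos (π / 5) * Q k z +
    sin (π / 5) * (cos (k * π / 5) * z 1 - sin (k * π / 5) * z 0) := by
  have e2 : ((k + 1 : ℤ) : ℝ) * π / 5 = (k : ℝ) * π / 5 + π / 5 := by push_cast; ring
  rw [Q_apply, Q_apply, e2, cos_add, sin_add]; ring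

lemma Q_inj (k : ℤ) {z : Plane} (h0 : Q k z = 0) (h1 : Q (k + 1) z = 0) : z = 0 := by
  rw [Q_succ, h0, mul_zero, zero_add] at h1
  have h2 := (mul_eq_zero.1 h1).resolve_left sin_pos.ne'
  rw [Q_apply] at h0
  have hs := cos_sq_add_sin_sq ((k : ℝ) * π / 5)
  ext i; fin_cases i
  · show z 0 = 0
    linear_combination cos (k * π / 5) * h0 - sin (k * π / 5) * h2 - z 0 * hs
  · show z 1 = 0
    linear_combination sin (k * π / 5) * h0 + cos (k * π / 5) * h2 - z 1 * hs

lemma Q_surj (k : ℤ) (a b : ℝ) : ∃ z : Plane, Q k z = a ∧ Q (k + 1) z = b := by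
  have hs := cos_sq_add_sin_sq ((k : ℝ) * π / 5)
  set c := (b - cos (π / 5) * a) / sin (π / 5) with hc
  have hz : Q k !₂[a * cos (k * π / 5) - c * sin (k * π / 5),
      a * sin (k * π / 5) + c * cos (k * π / 5)] = a := by
    rw [Q_apply]; simp; linear_combination a * hs
  refine ⟨_, hz, ?_⟩
  rw [Q_succ, hz]
  have : sin (π / 5) * c = b - cos (π / 5) * a := by
    rw [hc]; field_simp [sin_pos.ne']
  simp [-cos_pi_div_five]; linear_combination this + sin (π / 5) * c * hs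

lemma abs_Q_period (k m : ℤ) (z : Plane) : |Q (k + 5 * m) z| = |Q k z| := by
  induction m using Int.induction_on with
  | zero => simp
  | succ m ih => rw [show k + 5 * ((m : ℤ) + 1) = k + 5 * m + 5 by ring, Q5, abs_neg, ih]
  | pred m ih =>
    rw [← ih, show k + 5 * (-(m : ℤ)) = k + 5 * (-(m : ℤ) - 1) + 5 by ring, Q5, abs_neg]

lemma all_of_five (k : ℤ) (z : Plane) (p : ℝ → Prop) (h0 : p |Q k z|) (h1 : p |Q (k + 1) z|)
    (h2 : p |Q (k + 2) z|) (h3 : p |Q (k + 3) z|) (h4 : p |Q (k + 4) z|) (j : ℤ) : p |Q j z| := by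
  have e : j = k + (j - k) % 5 + 5 * ((j - k) / 5) := by omega
  rw [e, abs_Q_period]
  have : (j - k) % 5 = 0 ∨ (j - k) % 5 = 1 ∨ (j - k) % 5 = 2 ∨ (j - k) % 5 = 3 ∨ (j - k) % 5 = 4 := by
    omega
  rcases this with h | h | h | h | h <;> rw [h] <;> simpa

lemma mem_int {z : Plane} : z ∈ interior decagon ↔ ∀ k, Q k z < 1 := by
  constructor
  · intro h k
    have hs : Function.Surjective (Q k) := fun a => by
      obtain ⟨z, hz, -⟩ := Q_surj k a 0; exact ⟨z, hz⟩
    have : z ∈ interior ((Q k) ⁻¹' Iic 1) := interior_mono (fun w hw => mem_dec.1 hw k) h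
    rw [(Q k).interior_preimage hs, interior_Iic] at this
    exact this
  · intro h
    have hU : IsOpen {w : Plane | |Q 0 w| < 1 ∧ |Q (0 + 1) w| < 1 ∧ |Q (0 + 2) w| < 1 ∧
        |Q (0 + 3) w| < 1 ∧ |Q (0 + 4) w| < 1} := by
      have := fun k => isOpen_lt (Q k).continuous.abs (continuous_const (y := (1 : ℝ)))
      exact (this _).inter ((this _).inter ((this _).inter ((this _).inter (this _))))
    have habs : ∀ k, |Q k z| < 1 := fun k => abs_lt.2 ⟨by have := h (k + 5); rw [Q5] at this; linarith, h k⟩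
    refine interior_maximal ?_ hU ⟨habs _, habs _, habs _, habs _, habs _⟩
    rintro w ⟨h0, h1, h2, h3, h4⟩
    exact mem_dec.2 fun k => ((le_abs_self _).trans (all_of_five 0 w (· < 1) h0 h1 h2 h3 h4 k).le)

lemma mem_int_vadd {x z : Plane} : z ∈ interior (x +ᵥ decagon) ↔ ∀ k, Q k z - Q k x < 1 := by
  rw [interior_vadd, mem_vadd_set_iff_neg_vadd_mem, mem_int]
  simp only [vadd_eq_add, map_add, map_neg]
  exact forall_congr' fun k => by constructor <;> intro h <;> linarith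

lemma dec_domain : IsConvexDomain decagon := by
  have he : decagon = ⋂ k, (Q k) ⁻¹' Iic 1 := by ext z; simp [mem_dec]
  refine ⟨?_, ?_, ⟨0, mem_int.2 fun k => by simp⟩⟩
  · refine Metric.isCompact_of_isClosed_isBounded ?_ ?_
    · rw [he]; exact isClosed_iInter fun k => isClosed_Iic.preimage (Q k).continuous
    · refine (Metric.isBounded_closedBall (x := (0 : Plane)) (r := 1 + 2 / sin (π / 5))).subset ?_
      intro z hz
      have habs : ∀ k, |Q k z| ≤ 1 := fun k =>
        abs_le.2 ⟨by have := mem_dec.1 hz (k + 5); rw [Q5] at this; linarith, mem_dec.1 hz k⟩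
      have h0 : |z 0| ≤ 1 := by simpa [Q_apply] using habs 0
      have h1 := habs (0 + 1)
      rw [Q_succ] at h1
      have hQ : Q 0 z = z 0 := by simp [Q_apply]
      rw [hQ] at h1
      simp only [Int.cast_zero, zero_mul, zero_div, cos_zero, sin_zero, one_mul, sub_zero] at h1
      have hc : |cos (π / 5) * z 0| ≤ 1 := by
        rw [abs_mul]; exact mul_le_one₀ (abs_cos_le_one _) (abs_nonneg _) h0
      have h2 : |z 1| ≤ 2 / sin (π / 5) := by
        rw [le_div_iff₀ sin_pos, ← abs_of_pos sin_pos, ← abs_mul, mul_comm]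
        rw [abs_le] at h1 hc ⊢; constructor <;> linarith [h1.1, h1.2, hc.1, hc.2]
      rw [mem_closedBall_zero_iff, EuclideanSpace.norm_eq, Fin.sum_univ_two]
      rw [Real.sqrt_le_iff]
      have := sin_pos
      refine ⟨by positivity, ?_⟩
      simp only [Real.norm_eq_abs]
      nlinarith [abs_nonneg (z 0), abs_nonneg (z 1)]
  · rw [he]; exact convex_iInter fun k => (convex_Iic 1).linear_preimage (Q k : Plane →ₗ[ℝ] ℝ)

end Pool.Agent.P.MP_17f8fc_co
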