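import Mathlib

namespace Pool.Agent.P.MP_17f8fc_co

open scoped Pointwise

/-- The Euclidean plane. -/
abbrev Plane : Type := EuclideanSpace ℝ (Fin 2)

/-- A convex domain: compact, convex, with nonempty interior. -/
def IsConvexDomain (K : Set Plane) : Prop :=
  IsCompact K ∧ Convex ℝ K ∧ (interior K).Nonempty

/-- The translates `x i + K` form a translative cloud for `K`: the sets `K`, `x i + K` have pairwise
disjoint interiors, and every closed ray starting in `K` meets the interior of some `x i + K`. -/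
def IsCloud (K : Set Plane) {n : ℕ} (x : Fin n → Plane) : Prop :=
  (∀ i, Disjoint (interior K) (interior (x i +ᵥ K))) ∧
  (∀ i j, i ≠ j → Disjoint (interior (x i +ᵥ K)) (interior (x j +ᵥ K))) ∧
  ∀ p ∈ K, ∀ u : Plane, u ≠ 0 → ∃ i, ∃ t : ℝ, 0 ≤ t ∧ p + t • u ∈ interior (x i +ᵥ K)

/-- The regular decagon circumscribed about the unit circle. -/
def decagon : Set Plane :=
  {z | ∀ k : ℤ, Real.cos (k * Real.pi / 5) * z 0 + Real.sin (k * Real.pi / 5) * z 1 ≤ 1}

end Pool.Agent.P.MP_17f8fc_co
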