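import Pool.Agent.P.MP_17f8fc_co.Basic

namespace Pool.Agent.P.MP_17f8fc_co

open scoped Pointwise
open Real Set

/-- outside the open doubled decagon -/
def Out (z : Plane) : Prop := ∃ k, 2 ≤ |Q k z|

lemma Out.five {z : Plane} (h : Out z) (k : ℤ) : 2 ≤ |Q k z| ∨ 2 ≤ |Q (k + 1) z| ∨
    2 ≤ |Q (k + 2) z| ∨ 2 ≤ |Q (k + 3) z| ∨ 2 ≤ |Q (k + 4) z| := by
  by_contra hc
  push Not at hc
  obtain ⟨j, hj⟩ := h
  exact absurd (all_of_five k z (· < 2) hc.1 hc.2.1 hc.2.2.1 hc.2.2.2.1 hc.2.2.2.2 j) (not_lt.2 hj)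

lemma out_of_disjoint {x y : Plane}
    (h : Disjoint (interior (x +ᵥ decagon)) (interior (y +ᵥ decagon))) : Out (x - y) := by
  by_contra hc
  simp only [Out, not_exists, not_le, abs_lt, map_sub] at hc
  have h' : ∀ a, a ∈ interior (x +ᵥ decagon) → a ∈ interior (y +ᵥ decagon) → False :=
    fun a h1 h2 => Set.disjoint_left.1 h h1 h2
  refine h' ((1 / 2 : ℝ) • (x + y)) ?_ ?_ <;>
    refine mem_int_vadd.2 fun k => ?_ <;> simp only [map_smul, map_add, smul_eq_mul] <;>
    linarith [(hc k).1, (hc k).2]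

/-- sectors -/
def Sec (s : ℤ) (z : Plane) : Prop := 0 < Q s z ∧ Q (s + 1) z ≤ 0

/-- ahead in the direction killed by `Q k` -/
def Ahead (k : ℤ) (z : Plane) : Prop :=
  Q (k + 1) z ≤ -2 ∨ Q (k + 2) z ≤ -2 ∨ Q (k + 3) z ≤ -2 ∨ Q (k + 4) z ≤ -2

section
variable {n : ℕ} {x : Fin n → Plane}

lemma IsCloud.out (h : IsCloud decagon x) (i : Fin n) : Out (x i) := by
  have := h.1 i
  rw [← zero_vadd Plane decagon] at this
  have h2 := out_of_disjoint (x := x i) (y := 0) (by simpa using this.symm)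
  simpa using h2

lemma IsCloud.cover (h : IsCloud decagon x) (k : ℤ) (τ : ℝ) (hτ : |τ| ≤ 1) :
    ∃ i, Ahead k (x i) ∧ |Q k (x i) - τ| < 1 := by
  have g1 := g_gt; have g2 := g_lt; have gs := g_sq
  obtain ⟨u, hu0, hu1⟩ := Q_surj k 0 (-1)
  obtain ⟨w, hw0, hw1⟩ := Q_surj k 1 (g - 1)
  have hw : ∀ j, |Q j w| ≤ 1 := by
    refine all_of_five k w (· ≤ 1) ?_ ?_ ?_ ?_ ?_ <;>
      simp only [Q2, Q3, Q4, hw0, hw1, abs_le] <;> constructor <;> nlinarith
  have hp : ∀ j, |Q j (τ • w)| ≤ 1 := fun j => by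
    rw [map_smul, smul_eq_mul, abs_mul]; exact mul_le_one₀ hτ (abs_nonneg _) (hw j)
  obtain ⟨i, t, ht, hi⟩ := h.2.2 (τ • w) (mem_dec.2 fun j => (le_abs_self _).trans (hp j)) u
    (by rintro rfl; simp at hu1)
  rw [mem_int_vadd] at hi
  have hi' : ∀ j, |Q j (τ • w) + t * Q j u - Q j (x i)| < 1 := fun j => by
    have a := hi j; have b := hi (j + 5)
    rw [Q5, Q5] at b
    simp only [map_add, map_smul, smul_eq_mul] at a b ⊢
    exact abs_lt.2 ⟨by linarith, a⟩
  have h0 : |Q k (x i) - τ| < 1 := by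
    have := hi' k
    rw [hu0, map_smul, hw0] at this
    rw [abs_sub_comm]; simpa using this
  refine ⟨i, ?_, h0⟩
  have key : ∀ j, Q j u ≤ 0 → 2 ≤ |Q j (x i)| → Q j (x i) ≤ -2 := fun j hj h2 => by
    have a := abs_lt.1 (hi' j); have b := abs_le.1 (hp j)
    have c : t * Q j u ≤ 0 := mul_nonpos_of_nonneg_of_nonpos ht hj
    rcases le_abs.1 h2 with h3 | h3 <;> linarith [a.1, a.2, b.1, b.2]
  rcases (h.out i).five k with h2 | h2 | h2 | h2 | h2
  · exfalso
    have a := abs_lt.1 h0; have b := abs_le.1 hτ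
    rcases le_abs.1 h2 with h3 | h3 <;> linarith [a.1, a.2, b.1, b.2]
  · exact Or.inl (key _ (by rw [hu1]; norm_num) h2)
  · exact Or.inr (Or.inl (key _ (by rw [Q2, hu0, hu1]; linarith) h2))
  · exact Or.inr (Or.inr (Or.inl (key _ (by rw [Q3, hu0, hu1]; linarith) h2)))
  · exact Or.inr (Or.inr (Or.inr (key _ (by rw [Q4, hu0, hu1]; linarith) h2)))

lemma IsCloud.pair (h : IsCloud decagon x) (k : ℤ) : ∃ i j, Ahead k (x i) ∧ Ahead k (x j) ∧
    0 < Q k (x i) ∧ Q k (x j) ≤ 0 ∧ Q k (x i) - Q k (x j) < 2 := by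
  classical
  obtain ⟨j0, a0, b0⟩ := h.cover k (-1) (by simp)
  have b0' := abs_lt.1 b0
  obtain ⟨j, hj, hmax⟩ := Finset.exists_max_image
    (Finset.univ.filter fun j => Ahead k (x j) ∧ Q k (x j) ≤ 0) (fun j => Q k (x j))
    ⟨j0, by simp only [Finset.mem_filter, Finset.mem_univ, true_and]; exact ⟨a0, by linarith [b0'.2]⟩⟩
  simp only [Finset.mem_filter, Finset.mem_univ, true_and] at hj hmax
  have hj0 := hmax j0 ⟨a0, by linarith [b0'.2]⟩
  obtain ⟨i, a1, b1⟩ := h.cover k (Q k (x j) + 1) (abs_le.2 ⟨by linarith [b0'.1], by linarith [hj.2]⟩)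
  have b1' := abs_lt.1 b1
  refine ⟨i, j, a1, hj.1, ?_, hj.2, by linarith [b1'.2]⟩
  by_contra hc
  have := hmax i ⟨a1, not_lt.1 hc⟩
  linarith [b1'.1]

end

lemma left_sec {k : ℤ} {z : Plane} (ha : Ahead k z) (h0 : 0 < Q k z) (h2 : Q k z < 2) :
    Sec k z ∨ Sec (k + 1) z := by
  have g1 := g_gt; have g2 := g_lt; have gs := g_sq
  by_cases h1 : Q (k + 1) z ≤ 0
  · exact Or.inl ⟨h0, h1⟩
  refine Or.inr ⟨not_le.1 h1, ?_⟩
  rw [show k + 1 + 1 = k + 2 by ring]
  by_contra h3
  push Not at h1 h3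
  unfold Ahead at ha
  rw [Q3, Q4] at ha
  have h4 := h3
  rw [Q2] at h4
  generalize Q k z = a at *
  generalize Q (k + 1) z = b at *
  have e : g * (g * b) = g * b + b := by linear_combination b * gs
  have m := mul_pos (show 0 < g - 1 by linarith) h4
  rcases ha with h | h | h | h <;> nlinarith

lemma right_sec {k : ℤ} {z : Plane} (ha : Ahead (k + 2) z) (h0 : Q (k + 2) z ≤ 0)
    (h2 : -2 < Q (k + 2) z) : Sec (k + 1) z ∨ Sec k z := by
  have g1 := g_gt; have g2 := g_lt; have gs := g_sq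
  by_cases h1 : 0 < Q (k + 1) z
  · exact Or.inl ⟨h1, by rwa [show k + 1 + 1 = k + 2 by ring]⟩
  refine Or.inr ⟨?_, not_lt.1 h1⟩
  by_contra h3
  push Not at h1 h3
  unfold Ahead at ha
  rw [show k + 2 + 1 = k + 3 by ring, show k + 2 + 2 = k + 4 by ring,
    show k + 2 + 3 = k + 5 by ring, show k + 2 + 4 = k + 1 + 5 by ring, Q5, Q5, Q3, Q4] at ha
  rw [Q2] at h0 h2
  generalize Q k z = a at *
  generalize Q (k + 1) z = b at *
  rcases ha with h | h | h | h <;> nlinarith

/-- a point of a sector outside the doubled decagon lies beyond the edge of that sector -/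
lemma Sec.far {s : ℤ} {z : Plane} (h : Sec s z) (ho : Out z) : 2 ≤ g * Q s z - g * Q (s + 1) z := by
  have g1 := g_gt; have g2 := g_lt
  obtain ⟨h0, h1⟩ := h
  have := ho.five s
  rw [Q2, Q3, Q4] at this
  generalize Q s z = a at *
  generalize Q (s + 1) z = b at *
  simp only [le_abs] at this
  rcases this with (h | h) | (h | h) | (h | h) | (h | h) | (h | h) <;> nlinarith

lemma Sec.disj {s : ℤ} {z : Plane} (h : Sec s z) {r : ℤ} (h1 : 1 ≤ r) (h9 : r ≤ 9) :
    ¬ Sec (s + r) z := by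
  have g1 := g_gt
  obtain ⟨h0, h1⟩ := h
  have p := mul_pos (show 0 < g by linarith) h0
  have q := mul_nonpos_of_nonneg_of_nonpos (show 0 ≤ g by linarith) h1
  rintro ⟨a, b⟩
  interval_cases r
  · linarith
  · rw [Q2] at a; linarith
  · rw [Q3] at a; linarith
  · rw [Q4] at a; linarith
  · rw [Q5] at a; linarith
  · rw [show s + 6 + 1 = s + 2 + 5 by ring, Q5, Q2] at b; linarith
  · rw [show s + 7 + 1 = s + 3 + 5 by ring, Q5, Q3] at b; linarith
  · rw [show s + 8 + 1 = s + 4 + 5 by ring, Q5, Q4] at b; linarith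
  · rw [show s + 9 + 1 = s + 10 by ring, Q10] at b; linarith

/-- two points in the tip triangle of a sector overlap -/
lemma tip_overlap {s : ℤ} {y z : Plane} (hy : Sec s y) (hz : Sec s z) (oy : Out y) (oz : Out z)
    (ly : g * Q s y < 2) (lz : g * Q s z < 2) (ry : -2 < g * Q (s + 1) y)
    (rz : -2 < g * Q (s + 1) z) : ¬ Out (y - z) := by
  have g1 := g_gt; have g2 := g_lt; have gs := g_sq
  have fy := hy.far oy; have fz := hz.far oz
  obtain ⟨y0, y1⟩ := hy; obtain ⟨z0, z1⟩ := hz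
  intro ho
  have := ho.five s
  rw [Q2, Q3, Q4] at this
  simp only [map_sub] at this
  generalize Q s y = a at *
  generalize Q (s + 1) y = b at *
  generalize Q s z = c at *
  generalize Q (s + 1) z = d at *
  have hp : 0 < g - 1 := by linarith
  have ea : (g - 1) * (g * a) = a := by linear_combination a * gs
  have eb : (g - 1) * (g * b) = b := by linear_combination b * gs
  have ec : (g - 1) * (g * c) = c := by linear_combination c * gs
  have ed : (g - 1) * (g * d) = d := by linear_combination d * gs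
  have m1 := mul_le_mul_of_nonneg_left fy hp.le
  have m2 := mul_le_mul_of_nonneg_left fz hp.le
  have m3 := mul_lt_mul_of_pos_left ly hp
  have m4 := mul_lt_mul_of_pos_left lz hp
  have m5 := mul_lt_mul_of_pos_left ry hp
  have m6 := mul_lt_mul_of_pos_left rz hp
  have n1 := mul_pos hp y0; have n2 := mul_pos hp z0
  have n3 := mul_nonpos_of_nonneg_of_nonpos hp.le y1
  have n4 := mul_nonpos_of_nonneg_of_nonpos hp.le z1
  simp only [le_abs] at this
  rcases this with (h | h) | (h | h) | (h | h) | (h | h) | (h | h) <;> linarith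

/-- the same pair cannot serve two consecutive edge directions -/
lemma no_double {s : ℤ} {y z : Plane} (hy : Sec s y) (hz : Sec (s + 2) z) (oy : Out y) (oz : Out z)
    (h1 : Q (s + 1) z - Q (s + 1) y < 2) (h2 : Q (s + 2) z - Q (s + 2) y < 2) : ¬ Out (z - y) := by
  have g1 := g_gt; have g2 := g_lt; have gs := g_sq
  have fy := hy.far oy; have fz := hz.far oz
  obtain ⟨y0, y1⟩ := hy; obtain ⟨z0, z1⟩ := hz
  intro ho
  have := ho.five s
  rw [show s + 2 + 1 = s + 3 by ring] at fz z1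
  rw [Q2, Q3, Q4] at this
  rw [Q2, Q3] at fz
  rw [Q2] at z0; rw [Q3] at z1; rw [Q2, Q2] at h2
  simp only [map_sub] at this
  generalize Q s y = a at *
  generalize Q (s + 1) y = b at *
  generalize Q s z = c at *
  generalize Q (s + 1) z = d at *
  have hp : 0 < g := by linarith
  have ea : g * (g * a) = g * a + a := by linear_combination a * gs
  have eb : g * (g * b) = g * b + b := by linear_combination b * gs
  have ec : g * (g * c) = g * c + c := by linear_combination c * gs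
  have ed : g * (g * d) = g * d + d := by linear_combination d * gs
  have fz' : 2 ≤ c := by linarith
  have z1' : d ≤ c := by nlinarith
  have fy' : 2 * g - 2 ≤ a - b := by nlinarith
  have m1 := mul_le_mul_of_nonneg_left fz' hp.le
  have m2 := mul_le_mul_of_nonneg_left z1' hp.le
  have m3 := mul_lt_mul_of_pos_left h1 hp
  have m4 := mul_lt_mul_of_pos_left h2 hp
  have m5 := mul_pos hp z0
  have m6 := mul_pos hp y0
  have m7 := mul_nonpos_of_nonneg_of_nonpos hp.le y1
  have hq : 0 < g - 1 := by linarith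
  have m8 := mul_lt_mul_of_pos_left h2 hq
  have m9 := mul_pos hq z0
  have m10 := mul_nonpos_of_nonneg_of_nonpos hq.le y1
  have m11 := mul_le_mul_of_nonneg_left fz' hq.le
  simp only [le_abs] at this
  rcases this with (h | h) | (h | h) | (h | h) | (h | h) | (h | h) <;> linarith

section
variable {n : ℕ} (x : Fin n → Plane)

open Classical in
/-- indices of the points in sector `s` -/
noncomputable def S (s : ℤ) : Finset (Fin n) := Finset.univ.filter fun i => Sec s (x i)

/-- two points of sector `s` with small second coordinate -/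
def A (s : ℤ) : Prop := ∃ i j, i ≠ j ∧ Sec s (x i) ∧ Sec s (x j) ∧ g * Q s (x i) < 2 ∧ g * Q s (x j) < 2

/-- two points of sector `s` with small first coordinate -/
def B (s : ℤ) : Prop := ∃ i j, i ≠ j ∧ Sec s (x i) ∧ Sec s (x j) ∧
  -2 < g * Q (s + 1) (x i) ∧ -2 < g * Q (s + 1) (x j)

variable {x}

lemma mem_S {s : ℤ} {i : Fin n} : i ∈ S x s ↔ Sec s (x i) := by simp [S]

lemma IsCloud.out_sub (h : IsCloud decagon x) {i j : Fin n} (hij : i ≠ j) : Out (x i - x j) :=
  out_of_disjoint (h.2.1 i j hij)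

lemma IsCloud.empty (h : IsCloud decagon x) (s : ℤ) (he : ∀ i, ¬ Sec (s + 1) (x i)) :
    B x s ∨ A x (s + 2) := by
  have g1 := g_gt; have g2 := g_lt; have gs := g_sq
  obtain ⟨l1, r1, al1, ar1, p1, q1, d1⟩ := h.pair (s + 1)
  obtain ⟨l2, r2, al2, ar2, p2, q2, d2⟩ := h.pair (s + 2)
  have sl1 : Sec (s + 2) (x l1) := by
    have := (left_sec al1 p1 (by linarith)).resolve_left (he _)
    rwa [show s + 1 + 1 = s + 2 by ring] at this
  have sr2 : Sec s (x r2) := (right_sec ar2 q2 (by linarith)).resolve_left (he _)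
  have fl1 := sl1.far (h.out _)
  have fr2 := sr2.far (h.out _)
  have a1 := sl1.1; have a2 := sl1.2; have a3 := sr2.1; have a4 := sr2.2
  rw [show s + 2 + 1 = s + 3 by ring] at fl1 a2
  rw [Q2, Q3] at fl1
  rw [Q2] at a1; rw [Q3] at a2
  have e1 : g * (g * Q (s + 1) (x l1)) = g * Q (s + 1) (x l1) + Q (s + 1) (x l1) := by
    linear_combination Q (s + 1) (x l1) * gs
  have e2 : g * (g * Q s (x l1)) = g * Q s (x l1) + Q s (x l1) := by
    linear_combination Q s (x l1) * gs
  have fl1' : 2 ≤ Q s (x l1) := by linarith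
  have hl1 : 2 < g * Q (s + 1) (x l1) := by linarith
  have hr2 : g * Q (s + 2) (x r2) ≤ -2 := by
    rw [Q2]
    have e3 : g * (g * Q (s + 1) (x r2)) = g * Q (s + 1) (x r2) + Q (s + 1) (x r2) := by
      linear_combination Q (s + 1) (x r2) * gs
    linarith
  have br1 : -2 < g * g * Q (s + 1) (x r1) := by nlinarith
  have bl2 : g * g * Q (s + 2) (x l2) < 2 := by nlinarith
  have sr1 : Sec s (x r1) := by
    have := right_sec (k := s - 1) (z := x r1) (by rwa [show s - 1 + 2 = s + 1 by ring])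
      (by rwa [show s - 1 + 2 = s + 1 by ring]) (by rw [show s - 1 + 2 = s + 1 by ring]; linarith)
    rw [show s - 1 + 1 = s by ring] at this
    refine this.resolve_right fun hs => ?_
    have f := hs.far (h.out _)
    have b1 := hs.1; have b2 := hs.2
    have e := Q2 (s - 1) (x r1)
    rw [show s - 1 + 2 = s + 1 by ring] at e
    rw [show s - 1 + 1 = s by ring] at e f b2
    nlinarith
  have sl2 : Sec (s + 2) (x l2) := by
    refine (left_sec al2 p2 (by linarith)).resolve_right fun hs => ?_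
    have f := hs.far (h.out _)
    have b1 := hs.1; have b2 := hs.2
    have e := Q2 (s + 2) (x l2)
    rw [show s + 2 + 2 = s + 2 + 1 + 1 by ring] at e
    rw [e] at f b2
    have e3 : g * (g * Q (s + 2 + 1) (x l2)) = g * Q (s + 2 + 1) (x l2) + Q (s + 2 + 1) (x l2) := by
      linear_combination Q (s + 2 + 1) (x l2) * gs
    nlinarith
  by_cases hr : r1 = r2
  · by_cases hl : l1 = l2
    · subst hr; subst hl
      have hne : l1 ≠ r1 := by
        rintro rfl; exact sr1.disj (r := 2) (by norm_num) (by norm_num) sl1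
      exact absurd (h.out_sub hne) (no_double sr1 sl1 (h.out _) (h.out _) d1 d2)
    · refine Or.inr ⟨l1, l2, hl, sl1, sl2, ?_, by nlinarith⟩
      rw [Q2]; nlinarith
  · refine Or.inl ⟨r1, r2, hr, sr1, sr2, by nlinarith, ?_⟩
    have : -2 < Q (s + 2) (x r2) := by linarith
    rw [Q2] at this
    linarith

open Classical in
lemma IsCloud.step (h : IsCloud decagon x) (s : ℤ) :
    1 + (if A x (s + 1) then 1 else 0) + (if B x (s + 1) then 1 else 0) ≤
      (S x (s + 1)).card + (if B x s then 1 else 0) + (if A x (s + 2) then 1 else 0) := by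
  by_cases he : ∀ i, ¬ Sec (s + 1) (x i)
  · have hA : ¬ A x (s + 1) := fun ⟨i, _, _, hi, _⟩ => he i hi
    have hB : ¬ B x (s + 1) := fun ⟨i, _, _, hi, _⟩ => he i hi
    rw [if_neg hA, if_neg hB]
    rcases h.empty s he with h1 | h1 <;> rw [if_pos h1] <;> omega
  push Not at he
  obtain ⟨i0, hi0⟩ := he
  have c1 : 0 < (S x (s + 1)).card := Finset.card_pos.2 ⟨i0, mem_S.2 hi0⟩
  have cA : A x (s + 1) → 1 < (S x (s + 1)).card := fun ⟨i, j, hij, hi, hj, _⟩ =>
    Finset.one_lt_card.2 ⟨i, mem_S.2 hi, j, mem_S.2 hj, hij⟩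
  have cB : B x (s + 1) → 1 < (S x (s + 1)).card := fun ⟨i, j, hij, hi, hj, _⟩ =>
    Finset.one_lt_card.2 ⟨i, mem_S.2 hi, j, mem_S.2 hj, hij⟩
  have cAB : A x (s + 1) → B x (s + 1) → 2 < (S x (s + 1)).card := by
    rintro ⟨i, j, hij, hi, hj, li, lj⟩ ⟨i', j', hij', hi', hj', ri, rj⟩
    rw [Finset.two_lt_card_iff]
    by_cases h1 : i' = i ∨ i' = j
    · by_cases h2 : j' = i ∨ j' = j
      · exfalso
        refine tip_overlap hi' hj' (h.out _) (h.out _) ?_ ?_ ri rj (h.out_sub hij')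
        · rcases h1 with rfl | rfl <;> assumption
        · rcases h2 with rfl | rfl <;> assumption
      · push Not at h2
        exact ⟨i, j, j', mem_S.2 hi, mem_S.2 hj, mem_S.2 hj', hij, h2.1.symm, h2.2.symm⟩
    · push Not at h1
      exact ⟨i, j, i', mem_S.2 hi, mem_S.2 hj, mem_S.2 hi', hij, h1.1.symm, h1.2.symm⟩
  by_cases hA : A x (s + 1) <;> by_cases hB : B x (s + 1)
  · have := cAB hA hB; rw [if_pos hA, if_pos hB]; omega
  · have := cA hA; rw [if_pos hA, if_neg hB]; omega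
  · have := cB hB; rw [if_neg hA, if_pos hB]; omega
  · rw [if_neg hA, if_neg hB]; omega

lemma Sec10 (s : ℤ) (z : Plane) : Sec (s + 10) z ↔ Sec s z := by
  unfold Sec; rw [show s + 10 + 1 = s + 1 + 10 by ring, Q10, Q10]

lemma sum_card_le : ∑ r ∈ Finset.range 10, (S x ((r : ℤ) + 1)).card ≤ n := by
  classical
  rw [← Finset.card_biUnion]
  · exact (Finset.card_le_univ _).trans (by simp)
  · intro a ha b hb hab
    simp only [Finset.coe_range, mem_Iio] at ha hb
    refine Finset.disjoint_left.2 fun i h1 h2 => ?_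
    rw [mem_S] at h1 h2
    rcases lt_or_gt_of_ne hab with h | h
    · refine h1.disj (r := (b : ℤ) - a) (by omega) (by omega) ?_
      rwa [show (a : ℤ) + 1 + (b - a) = b + 1 by ring]
    · refine h2.disj (r := (a : ℤ) - b) (by omega) (by omega) ?_
      rwa [show (b : ℤ) + 1 + (a - b) = a + 1 by ring]

theorem IsCloud.ten_le (h : IsCloud decagon x) : 10 ≤ n := by
  classical
  have hA : A x 11 ↔ A x 1 := by
    unfold A; rw [show (11 : ℤ) = 1 + 10 by norm_num]; simp only [Sec10, Q10]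
  have hB : B x 10 ↔ B x 0 := by
    unfold B; rw [show (10 : ℤ) = 0 + 10 by norm_num, show (0 : ℤ) + 10 + 1 = 0 + 1 + 10 by norm_num]
    simp only [Sec10, Q10]
  have h0 := h.step 0; have h1 := h.step 1; have h2 := h.step 2; have h3 := h.step 3
  have h4 := h.step 4; have h5 := h.step 5; have h6 := h.step 6; have h7 := h.step 7
  have h8 := h.step 8; have h9 := h.step 9
  have hs := sum_card_le (x := x)
  simp only [Finset.sum_range_succ, Finset.sum_range_zero] at hs
  norm_num only at h0 h1 h2 h3 h4 h5 h6 h7 h8 h9 hs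
  simp only [hA, hB] at h9
  omega

end

end Pool.Agent.P.MP_17f8fc_co
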