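import Pool.Agent.P.MP_17f8fc_co.Lower

namespace Pool.Agent.P.MP_17f8fc_co

open scoped Pointwise
open Real Set

lemma disjoint_of_out {x y : Plane} (h : Out (x - y)) :
    Disjoint (interior (x +ᵥ decagon)) (interior (y +ᵥ decagon)) := by
  refine Set.disjoint_left.2 fun z h1 h2 => ?_
  rw [mem_int_vadd] at h1 h2
  obtain ⟨k, hk⟩ := h
  have a := h1 k; have b := h2 k; have c := h1 (k + 5); have d := h2 (k + 5)
  rw [Q5, Q5] at c d
  rw [map_sub, le_abs] at hk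
  rcases hk with h | h <;> linarith

/-- size of the `j`-th translation vector -/
noncomputable def e (j : ℤ) : ℝ := if j % 2 = 0 then g - 1 else 1

/-- the translation vectors -/
noncomputable def X (j : ℤ) : Plane := (Q_surj j (e j) (-e j)).choose

lemma X0 (j : ℤ) : Q j (X j) = e j := (Q_surj j (e j) (-e j)).choose_spec.1
lemma X1 (j : ℤ) : Q (j + 1) (X j) = -e j := (Q_surj j (e j) (-e j)).choose_spec.2
lemma X2 (j : ℤ) : Q (j + 2) (X j) = -((g + 1) * e j) := by rw [Q2, X0, X1]; ring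
lemma X3 (j : ℤ) : Q (j + 3) (X j) = -(2 * g * e j) := by rw [Q3, X0, X1]; ring
lemma X4 (j : ℤ) : Q (j + 4) (X j) = -((g + 1) * e j) := by rw [Q4, X0, X1]; ring
lemma X6 (j : ℤ) : Q (j + 6) (X j) = e j := by
  rw [show j + 6 = j + 1 + 5 by ring, Q5, X1, neg_neg]
lemma X7 (j : ℤ) : Q (j + 7) (X j) = (g + 1) * e j := by
  rw [show j + 7 = j + 2 + 5 by ring, Q5, X2, neg_neg]
lemma X8 (j : ℤ) : Q (j + 8) (X j) = 2 * g * e j := by
  rw [show j + 8 = j + 3 + 5 by ring, Q5, X3, neg_neg]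
lemma X9 (j : ℤ) : Q (j + 9) (X j) = (g + 1) * e j := by
  rw [show j + 9 = j + 4 + 5 by ring, Q5, X4, neg_neg]

lemma e_cases (j : ℤ) : (e j = g - 1 ∧ ∀ r, (r % 2 = 0 → e (j + r) = g - 1) ∧ (r % 2 = 1 → e (j + r) = 1)) ∨
    (e j = 1 ∧ ∀ r, (r % 2 = 0 → e (j + r) = 1) ∧ (r % 2 = 1 → e (j + r) = g - 1)) := by
  unfold e
  by_cases h : j % 2 = 0
  · exact Or.inl ⟨if_pos h, fun r => ⟨fun hr => if_pos (by omega), fun hr => if_neg (by omega)⟩⟩
  · exact Or.inr ⟨if_neg h, fun r => ⟨fun hr => if_neg (by omega), fun hr => if_pos (by omega)⟩⟩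

lemma X10 (j : ℤ) : X (j + 10) = X j := by
  have he : e (j + 10) = e j := by
    rcases e_cases j with ⟨h, h'⟩ | ⟨h, h'⟩ <;> rw [h, (h' 10).1 (by norm_num)]
  rw [← sub_eq_zero]
  have a := X0 (j + 10); have b := X1 (j + 10)
  rw [Q10] at a; rw [show j + 10 + 1 = j + 1 + 10 by ring, Q10] at b
  exact Q_inj j (by rw [map_sub, a, X0, he, sub_self]) (by rw [map_sub, b, X1, he, sub_self])

lemma X_mod (j : ℤ) : ∃ i : Fin 10, X j = X ((i : ℕ) : ℤ) := by
  have hp : Function.Periodic X 10 := X10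
  refine ⟨⟨(j % 10).toNat, by omega⟩, ?_⟩
  have := hp.int_mul (j / 10) (j % 10)
  simp only [Int.cast_id] at this
  rw [show j % 10 + j / 10 * 10 = j by omega] at this
  rw [this]; congr 1; simp only; omega

lemma X_big (j : ℤ) : 2 ≤ Q (j + 8) (X j) := by
  have g1 := g_gt; have gs := g_sq
  rw [X8]; rcases e_cases j with ⟨h, -⟩ | ⟨h, -⟩ <;> rw [h] <;> linarith

lemma X_out (j : ℤ) {r : ℤ} (h1 : 1 ≤ r) (h9 : r ≤ 9) : Out (X j - X (j + r)) := by
  have g1 := g_gt; have g2 := g_lt; have gs := g_sq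
  have P : ∀ {k m : ℤ} {z : Plane}, k = m + 10 → Q k z = Q m z := fun h => by rw [h, Q10]
  rcases e_cases j with ⟨h, h'⟩ | ⟨h, h'⟩ <;> interval_cases r
  · exact ⟨j, by rw [map_sub, X0, ← P (k := j + 1 + 9) (by ring), X9, h, (h' 1).2 rfl, le_abs]; right; linarith⟩
  · exact ⟨j + 2, by rw [map_sub, X2, X0, h, (h' 2).1 rfl, le_abs]; right; linarith⟩
  · exact ⟨j + 3, by rw [map_sub, X3, X0, h, (h' 3).2 rfl, le_abs]; right; linarith⟩
  · exact ⟨j + 3, by rw [map_sub, X3, ← P (k := j + 4 + 9) (by ring), X9, h, (h' 4).1 rfl, le_abs]; right; linarith⟩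
  · exact ⟨j + 3, by rw [map_sub, X3, ← P (k := j + 5 + 8) (by ring), X8, h, (h' 5).2 rfl, le_abs]; right; linarith⟩
  · exact ⟨j + 3, by rw [map_sub, X3, ← P (k := j + 6 + 7) (by ring), X7, h, (h' 6).1 rfl, le_abs]; right; linarith⟩
  · exact ⟨j + 3, by rw [map_sub, X3, ← P (k := j + 7 + 6) (by ring), X6, h, (h' 7).2 rfl, le_abs]; right; linarith⟩
  · exact ⟨j + 4, by rw [map_sub, X4, ← P (k := j + 8 + 6) (by ring), X6, h, (h' 8).1 rfl, le_abs]; right; linarith⟩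
  · exact ⟨j + 1, by rw [map_sub, X1, ← P (k := j + 9 + 2) (by ring), X2, h, (h' 9).2 rfl, le_abs]; left; linarith⟩
  · exact ⟨j + 2, by rw [map_sub, X2, show j + 2 = j + 1 + 1 by ring, X1, h, (h' 1).2 rfl, le_abs]; right; linarith⟩
  · exact ⟨j + 2, by rw [map_sub, X2, X0, h, (h' 2).1 rfl, le_abs]; right; linarith⟩
  · exact ⟨j + 3, by rw [map_sub, X3, X0, h, (h' 3).2 rfl, le_abs]; right; linarith⟩
  · exact ⟨j + 3, by rw [map_sub, X3, ← P (k := j + 4 + 9) (by ring), X9, h, (h' 4).1 rfl, le_abs]; right; linarith⟩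
  · exact ⟨j + 3, by rw [map_sub, X3, ← P (k := j + 5 + 8) (by ring), X8, h, (h' 5).2 rfl, le_abs]; right; linarith⟩
  · exact ⟨j + 3, by rw [map_sub, X3, ← P (k := j + 6 + 7) (by ring), X7, h, (h' 6).1 rfl, le_abs]; right; linarith⟩
  · exact ⟨j + 3, by rw [map_sub, X3, ← P (k := j + 7 + 6) (by ring), X6, h, (h' 7).2 rfl, le_abs]; right; linarith⟩
  · exact ⟨j + 4, by rw [map_sub, X4, ← P (k := j + 8 + 6) (by ring), X6, h, (h' 8).1 rfl, le_abs]; right; linarith⟩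
  · exact ⟨j + 9, by rw [map_sub, X9, X0, h, (h' 9).2 rfl, le_abs]; left; linarith⟩

lemma exists_sec {u : Plane} (hu : u ≠ 0) : ∃ k, Sec k u := by
  by_contra hc
  simp only [Sec, not_exists, not_and, not_le] at hc
  have key : ∀ k, Q k u ≤ 0 := fun k => by
    by_contra h
    have := hc _ (hc _ (hc _ (hc _ (hc k (not_le.1 h)))))
    rw [show k + 1 + 1 + 1 + 1 + 1 = k + 5 by ring, Q5] at this
    linarith
  have z : ∀ k, Q k u = 0 := fun k => le_antisymm (key k) (by have := key (k + 5); rw [Q5] at this; linarith)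
  exact hu (Q_inj 0 (z _) (z _))

lemma hit {k : ℤ} {u p z : Plane} (hu : Sec k u) (hp : p ∈ decagon) {m : ℤ} (hm : 0 < Q m u)
    (hz : 2 ≤ Q m z)
    (hD : |Q k u * (Q (k + 1) z - Q (k + 1) p) - Q (k + 1) u * (Q k z - Q k p)| < Q k u - Q (k + 1) u) :
    ∃ t : ℝ, 0 ≤ t ∧ p + t • u ∈ interior (z +ᵥ decagon) := by
  have g1 := g_gt; have g2 := g_lt
  obtain ⟨w, hw0, hw1⟩ := Q_surj k 1 1
  have hw : ∀ j, |Q j w| ≤ 1 := by
    refine all_of_five k w (· ≤ 1) ?_ ?_ ?_ ?_ ?_ <;>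
      simp only [Q2, Q3, Q4, hw0, hw1, abs_le] <;> constructor <;> linarith
  obtain ⟨ha, hb⟩ := hu
  have hσ : 0 < Q k u - Q (k + 1) u := by linarith
  obtain ⟨μ, hμ⟩ : ∃ μ : ℝ, μ * (Q k u - Q (k + 1) u) =
      Q k u * (Q (k + 1) z - Q (k + 1) p) - Q (k + 1) u * (Q k z - Q k p) :=
    ⟨_, div_mul_cancel₀ _ hσ.ne'⟩
  have hμ1 : |μ| < 1 := by
    rw [← hμ, abs_mul, abs_of_pos hσ] at hD
    exact (mul_lt_iff_lt_one_left hσ).1 hD
  obtain ⟨t, ht⟩ : ∃ t : ℝ, t * Q k u = Q k z - Q k p - μ := ⟨_, div_mul_cancel₀ _ ha.ne'⟩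
  have hy : p + t • u = z - μ • w := by
    rw [← sub_eq_zero]
    refine Q_inj k ?_ ?_ <;> simp only [map_sub, map_add, map_smul, smul_eq_mul, hw0, hw1]
    · linarith
    · refine mul_left_cancel₀ ha.ne' ?_
      linear_combination Q (k + 1) u * ht + hμ
  have hlt : ∀ j, |μ * Q j w| < 1 := fun j => by
    rw [abs_mul]; exact (mul_le_of_le_one_right (abs_nonneg _) (hw j)).trans_lt hμ1
  refine ⟨t, ?_, ?_⟩
  · have h1 := congrArg (Q m) hy
    simp only [map_sub, map_add, map_smul, smul_eq_mul] at h1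
    have h2 := (abs_lt.1 (hlt m)).2
    have h3 := mem_dec.1 hp m
    by_contra hneg
    have := mul_nonpos_of_nonpos_of_nonneg (not_le.1 hneg).le hm.le
    linarith
  · rw [hy, mem_int_vadd]
    intro j
    simp only [map_sub, map_smul, smul_eq_mul]
    linarith [(abs_lt.1 (hlt j)).1]

lemma ray_hits {p u : Plane} (hp : p ∈ decagon) (hu : u ≠ 0) :
    ∃ j, ∃ t : ℝ, 0 ≤ t ∧ p + t • u ∈ interior (X j +ᵥ decagon) := by
  have g1 := g_gt; have g2 := g_lt; have gs := g_sq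
  obtain ⟨k0, hk⟩ := exists_sec hu
  obtain ⟨j, rfl⟩ : ∃ j, k0 = j + 1 := ⟨k0 - 1, by ring⟩
  have ha := hk.1; have hb := hk.2
  have hg : 0 < g := by linarith
  have ga := mul_pos hg ha
  have gb := mul_nonpos_of_nonneg_of_nonpos hg.le hb
  have m0 : 0 < Q (j + 8) u := by rw [show j + 8 = j + 1 + 2 + 5 by ring, Q5, Q2]; linarith
  have m1 : 0 < Q (j + 1 + 8) u := by rw [show j + 1 + 8 = j + 1 + 3 + 5 by ring, Q5, Q3]; linarith
  have m2 : 0 < Q (j + 2 + 8) u := by rw [show j + 2 + 8 = j + 1 + 4 + 5 by ring, Q5, Q4]; linarith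
  have H0 := hit hk hp m0 (X_big j)
  have H1 := hit hk hp m1 (X_big (j + 1))
  have H2 := hit hk hp m2 (X_big (j + 2))
  have a1 : Q (j + 1 + 1) (X j) = -((g + 1) * e j) := by rw [show j + 1 + 1 = j + 2 by ring, X2]
  have a2 : Q (j + 1 + 1) (X (j + 2)) = e (j + 2) := by rw [show j + 1 + 1 = j + 2 by ring, X0]
  have a3 : Q (j + 1) (X (j + 2)) = (g + 1) * e (j + 2) := by
    rw [← Q10, show j + 1 + 10 = j + 2 + 9 by ring, X9]
  rw [a1, X1] at H0; rw [X1, X0] at H1; rw [a2, a3] at H2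
  have p1 := mem_dec.1 hp (j + 1); have p2 := mem_dec.1 hp (j + 1 + 1)
  have p3 := mem_dec.1 hp (j + 1 + 5); have p4 := mem_dec.1 hp (j + 1 + 1 + 5)
  rw [Q5] at p3 p4
  have d1 := mul_nonneg ha.le (sub_nonneg.2 p2)
  have d2 := mul_nonneg ha.le (sub_nonneg.2 p4)
  have d3 := mul_nonneg (neg_nonneg.2 hb) (sub_nonneg.2 p1)
  have d4 := mul_nonneg (neg_nonneg.2 hb) (sub_nonneg.2 p3)
  by_contra hc
  have n0 := mt H0 fun h => hc ⟨_, h⟩
  have n1 := mt H1 fun h => hc ⟨_, h⟩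
  have n2 := mt H2 fun h => hc ⟨_, h⟩
  rw [not_lt, le_abs] at n0 n1 n2
  have k1 := mul_pos (show 0 < 2 - g by linarith) ha
  have k2 := mul_nonneg (show 0 ≤ 2 - g by linarith) (neg_nonneg.2 hb)
  have ea : g * (g * Q (j + 1) u) = g * Q (j + 1) u + Q (j + 1) u := by
    linear_combination Q (j + 1) u * gs
  have eb : g * (g * Q (j + 1 + 1) u) = g * Q (j + 1 + 1) u + Q (j + 1 + 1) u := by
    linear_combination Q (j + 1 + 1) u * gs
  have k3 := mul_pos (show 0 < g - 1 by linarith) ha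
  have k4 := mul_nonneg (show 0 ≤ g - 1 by linarith) (neg_nonneg.2 hb)
  rcases e_cases j with ⟨h, h'⟩ | ⟨h, h'⟩
  · rw [h] at n0; rw [(h' 1).2 rfl] at n1; rw [(h' 2).1 rfl] at n2
    rcases n0 with n0 | n0 <;> rcases n1 with n1 | n1 <;> rcases n2 with n2 | n2 <;> linarith
  · rw [h] at n0; rw [(h' 1).2 rfl] at n1; rw [(h' 2).1 rfl] at n2
    rcases n0 with n0 | n0 <;> rcases n1 with n1 | n1 <;> rcases n2 with n2 | n2 <;> nlinarith

theorem cloud_ten : IsCloud decagon (fun i : Fin 10 => X ((i : ℕ) : ℤ)) := by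
  refine ⟨fun i => ?_, fun i j hij => disjoint_of_out ?_, fun p hp u hu => ?_⟩
  · have := disjoint_of_out (x := 0) (y := X ((i : ℕ) : ℤ))
      ⟨_ + 8, by rw [zero_sub, map_neg, abs_neg]; exact (X_big _).trans (le_abs_self _)⟩
    rwa [zero_vadd] at this
  · have hne : (i : ℕ) ≠ j := fun h => hij (Fin.ext h)
    have hi := i.2; have hj := j.2
    rcases lt_or_gt_of_ne hne with h | h
    · have := X_out (i : ℕ) (r := ((j : ℕ) : ℤ) - (i : ℕ)) (by omega) (by omega)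
      rwa [add_sub_cancel] at this
    · have := X_out (i : ℕ) (r := ((j : ℕ) : ℤ) + 10 - (i : ℕ)) (by omega) (by omega)
      rwa [add_sub_cancel, X10] at this
  · obtain ⟨j, h⟩ := ray_hits hp hu
    obtain ⟨i, hi⟩ := X_mod j
    rw [hi] at h
    exact ⟨i, h⟩

end Pool.Agent.P.MP_17f8fc_co
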